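import Mathlib
import Pool.Agent.S04713

/-!
# MP_2780b6_an: a simple set for which `e ^ (-k ^ 3)` is complex zero decreasing

The standard basis works: this is the case `p = 3` of the theorem of the starting file `S04713`
(`e ^ (-k ^ p)` is a complex zero decreasing sequence for every integer `p ≥ 3`).  We also record all
translates and rescalings `q_k = c_k (x - a) ^ k` of the standard basis.
-/

set_option autoImplicit false

namespace Pool.Agent.Results.MP_2780b6_an.StandardBasisWorks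

open Polynomial

/-- Number of non-real zeros, with multiplicity, of a real polynomial. -/
noncomputable def Zc (p : ℝ[X]) : ℕ :=
  ((p.map (algebraMap ℝ ℂ)).roots.filter (fun z : ℂ => z.im ≠ 0)).card

/-- A simple set: `q k` is a real polynomial of degree exactly `k`. -/
def SimpleSet (q : ℕ → ℝ[X]) : Prop := ∀ k, (q k).degree = k

/-- `γ` is a `q`-CZDS: the (unique) linear operator `T` on real polynomials with
`T (q k) = γ k • q k` for all `k` does not increase the number of non-real zeros. -/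
def IsCZDS (q : ℕ → ℝ[X]) (γ : ℕ → ℝ) : Prop :=
  ∃ T : ℝ[X] →ₗ[ℝ] ℝ[X], (∀ k, T (q k) = γ k • q k) ∧ ∀ p : ℝ[X], Zc (T p) ≤ Zc p

/-- The sequence `e ^ (-k ^ 3)`. -/
@[irreducible] noncomputable def γ (k : ℕ) : ℝ := Real.exp (-((k : ℝ) ^ 3))

/-- The diagonal operator in the standard basis. -/
noncomputable def D : ℝ[X] →ₗ[ℝ] ℝ[X] where
  toFun f := ∑ n ∈ f.support, C (f.coeff n * Real.exp (-((n : ℝ) ^ 3))) * X ^ n
  map_add' f g := by
    ext k
    rw [coeff_add, Pool.Agent.S04713.coeff_image, Pool.Agent.S04713.coeff_image,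
      Pool.Agent.S04713.coeff_image, coeff_add, add_mul]
  map_smul' c f := by
    ext k
    rw [RingHom.id_apply, coeff_smul, Pool.Agent.S04713.coeff_image,
      Pool.Agent.S04713.coeff_image, coeff_smul, smul_eq_mul, smul_eq_mul, mul_assoc]

lemma γ_eq : γ = fun k : ℕ => Real.exp (-((k : ℝ) ^ 3)) := by
  funext k; unfold γ; rfl

lemma D_coeff (f : ℝ[X]) (k : ℕ) : (D f).coeff k = f.coeff k * γ k := by
  rw [γ_eq]; exact Pool.Agent.S04713.coeff_image 3 f k

lemma D_le (f : ℝ[X]) : Zc (D f) ≤ Zc f := Pool.Agent.S04713.result 3 le_rfl f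

lemma D_pow (k : ℕ) : D (X ^ k) = γ k • X ^ k := by
  ext n
  rw [D_coeff, coeff_smul, coeff_X_pow, smul_eq_mul]
  split_ifs with h
  · rw [h]; ring
  · simp

/-- Translation does not change the number of non-real zeros. -/
lemma Zc_comp (a : ℝ) (f : ℝ[X]) : Zc (f.comp (X + C a)) = Zc f := by
  unfold Zc
  have hmap : (f.comp (X + C a)).map (algebraMap ℝ ℂ) =
      (f.map (algebraMap ℝ ℂ)).comp (X + C (a : ℂ)) := by
    rw [Polynomial.map_comp]; simp
  rw [hmap]
  set F := f.map (algebraMap ℝ ℂ)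
  have hr : (F.comp (X + C (a : ℂ))).roots.map (fun z => z + (a : ℂ)) = F.roots := by
    have := F.map_roots_comp_C_mul_X_add_C (1 : ℂ) (a : ℂ) isUnit_one
    simpa using this
  conv_rhs => rw [← hr]
  rw [Multiset.filter_map, Multiset.card_map]
  congr 1
  apply Multiset.filter_congr
  intro z _
  simp

/-- The operator `p ↦ p.comp (X + C b)` as a linear map. -/
noncomputable def S (b : ℝ) : ℝ[X] →ₗ[ℝ] ℝ[X] := (aeval (X + C b : ℝ[X])).toLinearMap

lemma S_apply (b : ℝ) (f : ℝ[X]) : S b f = f.comp (X + C b) := rfl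

lemma transl (a : ℝ) (c : ℕ → ℝ) :
    IsCZDS (fun k => C (c k) * (X - C a) ^ k) γ := by
  refine ⟨S (-a) ∘ₗ D ∘ₗ S a, fun k => ?_, fun p => ?_⟩
  · have e : S a (C (c k) * (X - C a) ^ k) = c k • (X : ℝ[X]) ^ k := by
      rw [S_apply, mul_comp, C_comp, pow_comp, sub_comp, X_comp, C_comp, add_sub_cancel_right,
        smul_eq_C_mul]
    have e2 : S (-a) ((X : ℝ[X]) ^ k) = (X - C a) ^ k := by
      rw [S_apply, pow_comp, X_comp, C_neg, sub_eq_add_neg]
    rw [LinearMap.comp_apply, LinearMap.comp_apply, e, map_smul, D_pow, map_smul, map_smul, e2,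
      smul_eq_C_mul, smul_eq_C_mul, smul_eq_C_mul]
    ring
  · rw [LinearMap.comp_apply, LinearMap.comp_apply, S_apply (-a), Zc_comp, S_apply]
    exact (D_le _).trans (Zc_comp a p).le

/-- Q1 of MP_2780b6_an: yes.  The standard basis, and more generally every set
`q_k = c_k (x - a) ^ k` with all `c_k ≠ 0`, is a simple set for which `e ^ (-k ^ 3)` is a CZDS. -/
theorem result :
    (∃ q : ℕ → ℝ[X], SimpleSet q ∧ IsCZDS q (fun k => Real.exp (-((k : ℝ) ^ 3)))) ∧
    ∀ (a : ℝ) (c : ℕ → ℝ), (∀ k, c k ≠ 0) →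
      SimpleSet (fun k => C (c k) * (X - C a) ^ k) ∧
        IsCZDS (fun k => C (c k) * (X - C a) ^ k) (fun k => Real.exp (-((k : ℝ) ^ 3))) := by
  have main : ∀ (a : ℝ) (c : ℕ → ℝ), (∀ k, c k ≠ 0) →
      SimpleSet (fun k => C (c k) * (X - C a) ^ k) ∧
        IsCZDS (fun k => C (c k) * (X - C a) ^ k) (fun k => Real.exp (-((k : ℝ) ^ 3))) := by
    intro a c hc
    refine ⟨fun k => ?_, γ_eq ▸ transl a c⟩
    simp only
    rw [degree_C_mul (hc k), degree_pow, degree_X_sub_C]
    simp
  exact ⟨⟨_, main 0 (fun _ => 1) (fun _ => one_ne_zero)⟩, main⟩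

end Pool.Agent.Results.MP_2780b6_an.StandardBasisWorks
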